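import Pool.Agent.Results.MP_ca2859_nt.AllHeightsRationalWeierstrass
import Pool.Agent.V11326.WO

/-!
# Hyperelliptic curves with rational Weierstrass points: the discriminant bound for ALL configurations, of whatever height,
in windows of conductors

Hyperelliptic curves `C : y² = d x (x - 1) (x - l_1) … (x - l_m)`, `m = 2 g - 1`, of genus `g ≥ 2` over a number field `K`, with
different `l_i ∈ K ∖ {0, 1}` and `d ∈ K ^ ×`. For `x ∈ K ∖ {0, 1}` let `N(x)` be the truncated counting function of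
`[0] + [1] + [∞]`, the logarithm of the product of the norms of the primes at which `x` reduces to `0`, `1` or `∞`. There are
`X ^ (2 m / 3 + o(1))` configurations `l = (l_1, …, l_m)` with `N(l_i) ≤ log X` for all `i`, of all heights.

Let `v_n ≥ 1` be a sequence with exponent of convergence at most `τ` (for example `v_n = 2 ^ n`, `τ = 0`), `θ < 1`, and let
`P` be one of the properties (2) - (5) below of a configuration. There are a number `ν > 0` which does not depend on the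
sequence and a set `F ⊆ ℝ ^ m` of Hausdorff dimension at most `(m - ν + τ) / (1 - θ)`, and of measure zero if
`τ + m θ < ν`, such that for all `β ∈ ℝ ^ m` outside `F` and all large `n`, ALL configurations `l`, of whatever height, with
`|exp (2 N(l_i) / 3) - β_i v_n| ≤ v_n ^ θ` for all `i` have the property `P`.

(2) (if `κ > 4 g + 4`) `Δ_C ≤ c M_C ^ κ` for all `d ∈ K ^ ×` and, more generally, `Δ_C ≤ c ^ [L : K] (N(D_{L / K}) M_C) ^ κ`
for all number fields `L` which contain `K` and all `d ∈ L ^ ×`, `C` being the curve over `L`.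
(3) (if `0 ≤ κ < 4 g + 4`) `Δ_C > c M_C ^ κ` for some `d ∈ K ^ ×`.
(4) (if `κ > 2`) `Δ_C ≤ c M_C ^ κ` for some `d ∈ K ^ ×`.
(5) (if `κ < 2`) `Δ_C > c M_C ^ κ` for all `d ∈ K ^ ×`.

The proof combines the starting result `AllHeightsRationalWeierstrass` with a covering argument in `ℝ ^ m`. The
definitions `curve`, `counting`, `Szpiro`, `SzpiroExt` are those of that file.
-/

set_option autoImplicit false

namespace Pool.Agent.Results.MP_ca2859_nt.ConductorWindows

open Polynomial IsDedekindDomain NumberField MeasureTheory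
open Pool.Agent.W318 (discNorm badNorm)
open Pool.Agent.Results.MP_ca2859_nt.AllHeightsRationalWeierstrass

/-- The exponent of convergence of the sequence `v` is at most `τ`: the sum of the `v_n ^ (-p)` converges for all
`p > τ`. -/
def ExpLe (v : ℕ → ℝ) (τ : ℝ) : Prop := ∀ p : ℝ, τ < p → Summable fun n => (v n) ^ (-p)

/-- The configurations `(l_1, …, l_m)` of different elements of `K ∖ {0, 1}` with
`|(exp N(l_i)) ^ (2 / 3) - β_i w| ≤ w ^ θ` for all `i`. -/
def Window (K : Type) [Field K] [NumberField K] {m : ℕ} (β : Fin m → ℝ) (w θ : ℝ) : Set (Fin m → K) :=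
  {l | Function.Injective l ∧ ∀ i, (l i ≠ 0 ∧ l i ≠ 1) ∧
    |Real.exp (2 / 3 * counting (l i)) - β i * w| ≤ w ^ θ}

/-- All configurations, of whatever height, in windows around the points `v_n β` have the property `P`, for all `β`
outside a small set and all large `n`. -/
def AllInWindows (K : Type) [Field K] [NumberField K] (m : ℕ) (P : (Fin m → K) → Prop) : Prop :=
  ∃ ν : ℝ, 0 < ν ∧ ν ≤ m ∧ ∀ (v : ℕ → ℝ) (τ θ : ℝ), (∀ n, 1 ≤ v n) → 0 ≤ τ → ExpLe v τ → θ < 1 →
    ∃ F : Set (Fin m → ℝ), dimH F ≤ ENNReal.ofReal (((m : ℝ) - ν + τ) / (1 - θ)) ∧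
      (τ + m * θ < ν → volume F = 0) ∧
      ∀ β : Fin m → ℝ, β ∉ F → ∃ n₀ : ℕ, ∀ n : ℕ, n₀ ≤ n → ∀ l ∈ Window K β (v n) θ, P l

theorem transfer {K : Type} [Field K] [NumberField K] {m : ℕ} (hm : 0 < m) {P : (Fin m → K) → Prop}
    (hfin : ∀ X : ℝ, 1 ≤ X → (Configurations K m X).Finite) (h : AlmostAll K m P) : AllInWindows K m P := by
  obtain ⟨⟨ν, C, hν, -, hC⟩, -⟩ := h
  have e3 : ((3 : ℕ) : ℝ) = 3 := by norm_num
  have hset : ∀ X : ℝ, {l : Fin m → K | (Function.Injective l ∧ ∀ i, l i ≠ 0 ∧ l i ≠ 1) ∧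
      ∀ i, counting (l i) ≤ Real.log X} = Configurations K m X := by
    intro X
    ext l
    constructor
    · rintro ⟨⟨h1, h2⟩, h3⟩
      exact ⟨h1, fun i => ⟨h2 i, h3 i⟩⟩
    · rintro ⟨h1, h2⟩
      exact ⟨⟨h1, fun i => (h2 i).1⟩, fun i => (h2 i).2⟩
  obtain ⟨ν', hν', hν1, hmain⟩ := Pool.Agent.V11326.WO.tuples (m := m) (q := 3) (by norm_num) hm {l | ¬ P l}
    (fun l : Fin m → K => Function.Injective l ∧ ∀ i, l i ≠ 0 ∧ l i ≠ 1) (fun x => counting x) hν (C := C)
    (fun X hX => by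
      rw [hset X]
      exact hfin X hX)
    (fun X hX => by
      rw [hset X, e3]
      have e : {l | ¬ P l} ∩ Configurations K m X = {l | l ∈ Configurations K m X ∧ ¬ P l} := by
        ext l
        exact ⟨fun hl => ⟨hl.2, hl.1⟩, fun hl => ⟨hl.2, hl.1⟩⟩
      rw [e]
      exact hC X hX)
  rw [e3] at hmain
  refine ⟨ν', hν', hν1, fun v τ θ hv hτ hvτ hθ => ?_⟩
  obtain ⟨F, hF, hF0, h3⟩ := hmain v τ θ hv hτ hvτ hθ
  refine ⟨F, hF, hF0, fun β hβ => ?_⟩
  obtain ⟨n₀, hn⟩ := h3 β hβ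
  refine ⟨n₀, fun n hnn l hl => ?_⟩
  exact not_not.1 (hn n hnn l ⟨hl.1, fun i => (hl.2 i).1⟩ fun i => (hl.2 i).2)

theorem result (K : Type) [Field K] [NumberField K] (g m : ℕ) (hg : 2 ≤ g) (hm : m + 1 = 2 * g) (κ c : ℝ) (hc : 0 < c) :
    (4 * g + 4 < κ → AllInWindows K m fun l => (∀ d : K, d ≠ 0 → Szpiro g κ c l d) ∧
      ∀ (L : Type) [Field L] [NumberField L] [Algebra K L] (d : L), d ≠ 0 → SzpiroExt g κ c l d) ∧
    (0 ≤ κ → κ < 4 * g + 4 → AllInWindows K m fun l => ∃ d : K, d ≠ 0 ∧ ¬ Szpiro g κ c l d) ∧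
    (2 < κ → AllInWindows K m fun l => ∃ d : K, d ≠ 0 ∧ Szpiro g κ c l d) ∧
    (κ < 2 → AllInWindows K m fun l => ∀ d : K, d ≠ 0 → ¬ Szpiro g κ c l d) := by
  obtain ⟨h1, h2⟩ := AllHeightsRationalWeierstrass.result K g m hg hm
  obtain ⟨C1, hC1⟩ := (h1 1 one_pos).1
  have hfin : ∀ X : ℝ, 1 ≤ X → (Configurations K m X).Finite := fun X hX => (hC1 X hX).1
  have hm0 : 0 < m := by omega
  obtain ⟨a1, a2, a3, a4⟩ := h2 κ c hc
  exact ⟨fun hκ => transfer hm0 hfin (a1 hκ), fun hκ0 hκ => transfer hm0 hfin (a2 hκ0 hκ),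
    fun hκ => transfer hm0 hfin (a3 hκ), fun hκ => transfer hm0 hfin (a4 hκ)⟩

end Pool.Agent.Results.MP_ca2859_nt.ConductorWindows
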