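import Pool.Agent.Results.MP_ca2859_nt.AllHeightsRationalWeierstrass
import Pool.Agent.V11326.WP

/-!
# Hyperelliptic curves with rational Weierstrass points: the discriminant bound for ALL configurations, of whatever height,
# with the largest conductor close to powers of a typical base

Hyperelliptic curves `C : y² = d x (x - 1) (x - l_1) … (x - l_m)`, `m = 2 g - 1`, of genus `g ≥ 2` over a number field `K`, with
different `l_i ∈ K ∖ {0, 1}` and `d ∈ K ^ ×`. For `x ∈ K ∖ {0, 1}` let `N(x)` be the truncated counting function of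
`[0] + [1] + [∞]`, the logarithm of the product of the norms of the primes at which `x` reduces to `0`, `1` or `∞`, and
`N(l)` the largest of the `N(l_i)`. There are `X ^ (1 + o(1))` configurations `l = (l_1, …, l_m)` with
`exp (2 m N(l) / 3) ≤ X`, of all heights.

Let `lam n / log n → ∞` (for example `lam n = n`), `U` a countable set, `θ < 1`, and let `P` be one of the properties (2) - (5)
below of a configuration. There are a number `ν > 0` which does not depend on `lam`, `U`, `θ` and a set `F` of real numbers of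
Hausdorff dimension at most `(1 - ν) / (1 - θ)`, of measure zero if `θ < ν`, such that for all `x > 1` outside `F`, all
`β > 0` in `U` and all large `n`, ALL configurations `l`, of whatever height, with
`|exp (2 m N(l) / 3) - β x ^ lam n| ≤ x ^ (θ lam n)` have the property `P`.

(2) (if `κ > 4 g + 4`) `Δ_C ≤ c M_C ^ κ` for all `d ∈ K ^ ×` and, more generally, `Δ_C ≤ c ^ [L : K] (N(D_{L / K}) M_C) ^ κ`
for all number fields `L` which contain `K` and all `d ∈ L ^ ×`, `C` being the curve over `L`.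
(3) (if `0 ≤ κ < 4 g + 4`) `Δ_C > c M_C ^ κ` for some `d ∈ K ^ ×`.
(4) (if `κ > 2`) `Δ_C ≤ c M_C ^ κ` for some `d ∈ K ^ ×`.
(5) (if `κ < 2`) `Δ_C > c M_C ^ κ` for all `d ∈ K ^ ×`.

The proof combines the starting result `AllHeightsRationalWeierstrass` with the theorem of helper1 that the powers of almost
every base avoid thin sets.
-/

set_option autoImplicit false

namespace Pool.Agent.Results.MP_ca2859_nt.ConductorsNearPowers

open Polynomial IsDedekindDomain NumberField MeasureTheory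
open Pool.Agent.W318 (discNorm badNorm)
open Pool.Agent.Results.MP_ca2859_nt.AllHeightsRationalWeierstrass

/-- `lam n / log n` tends to infinity (for example `lam n = n`, `n!`). -/
def Fast (lam : ℕ → ℝ) : Prop := Filter.Tendsto (fun n : ℕ => lam n / Real.log n) Filter.atTop Filter.atTop

/-- The largest `N(l_i)`. -/
noncomputable def largest {K : Type} [Field K] [NumberField K] {m : ℕ} (l : Fin m → K) : ℝ := ⨆ i, counting (l i)

/-- The configurations `(l_1, …, l_m)` of different elements of `K ∖ {0, 1}` with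
`|exp (2 m N(l) / 3) - β x ^ y| ≤ x ^ (θ y)`. -/
def Window (K : Type) [Field K] [NumberField K] (m : ℕ) (β x y θ : ℝ) : Set (Fin m → K) :=
  {l | (Function.Injective l ∧ ∀ i, l i ≠ 0 ∧ l i ≠ 1) ∧
    |Real.exp (2 * m / 3 * largest l) - β * x ^ y| ≤ x ^ (θ * y)}

/-- All configurations, of whatever height, in the windows around `β x ^ lam n` have the property `P`, for all `x > 1`
outside a small set and all large `n`. -/
def AllNearPowers (K : Type) [Field K] [NumberField K] (m : ℕ) (P : (Fin m → K) → Prop) : Prop :=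
  ∃ ν : ℝ, 0 < ν ∧ ν ≤ 1 ∧ ∀ (lam : ℕ → ℝ) (θ : ℝ), Fast lam → θ < 1 → ∀ U : Set ℝ, U.Countable →
    ∃ F : Set ℝ, dimH F ≤ ENNReal.ofReal ((1 - ν) / (1 - θ)) ∧ (θ < ν → volume F = 0) ∧
      ∀ x : ℝ, 1 < x → x ∉ F → ∀ β ∈ U, 0 < β → ∃ n₀ : ℕ, ∀ n : ℕ, n₀ ≤ n → ∀ l ∈ Window K m β x (lam n) θ, P l

theorem transfer {K : Type} [Field K] [NumberField K] {m : ℕ} (hm : 0 < m) {P : (Fin m → K) → Prop}
    (hfin : ∀ X : ℝ, 1 ≤ X → (Configurations K m X).Finite) (h : AlmostAll K m P) : AllNearPowers K m P := by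
  obtain ⟨⟨ν, C, hν, -, hC⟩, -⟩ := h
  have hne : Nonempty (Fin m) := ⟨⟨0, hm⟩⟩
  have hm0 : (0 : ℝ) < m := by exact_mod_cast hm
  have hset : ∀ X : ℝ, {l : Fin m → K | (Function.Injective l ∧ ∀ i, l i ≠ 0 ∧ l i ≠ 1) ∧
      largest l ≤ Real.log X} = Configurations K m X := by
    intro X
    ext l
    constructor
    · rintro ⟨⟨h1, h2⟩, h3⟩
      exact ⟨h1, fun i => ⟨h2 i, (le_ciSup (f := fun i => counting (l i)) (Set.finite_range _).bddAbove i).trans h3⟩⟩
    · rintro ⟨h1, h2⟩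
      exact ⟨⟨h1, fun i => (h2 i).1⟩, ciSup_le fun i => (h2 i).2⟩
  obtain ⟨ν', hν', hν1, hmain⟩ := Pool.Agent.V11326.WP.single (T := Fin m → K) (r := 2 * m / 3) (by positivity)
    {l | ¬ P l} (fun l : Fin m → K => Function.Injective l ∧ ∀ i, l i ≠ 0 ∧ l i ≠ 1) (fun l => largest l) hν (C := C)
    (fun X hX => by
      rw [hset X]
      exact hfin X hX)
    (fun X hX => by
      rw [hset X]
      have e : {l | ¬ P l} ∩ Configurations K m X = {l | l ∈ Configurations K m X ∧ ¬ P l} := by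
        ext l
        exact ⟨fun hl => ⟨hl.2, hl.1⟩, fun hl => ⟨hl.2, hl.1⟩⟩
      rw [e]
      exact hC X hX)
  refine ⟨ν', hν', hν1, fun lam θ hlam hθ U hU => ?_⟩
  obtain ⟨F, hF, hF0, h3⟩ := hmain lam θ hlam hθ U hU
  refine ⟨F, hF, hF0, fun x hx hxF β hβ hβ0 => ?_⟩
  obtain ⟨n₀, hn⟩ := h3 x hx hxF β hβ hβ0
  exact ⟨n₀, fun n hnn l hl => not_not.1 (hn n hnn l hl.1 hl.2)⟩

theorem result (K : Type) [Field K] [NumberField K] (g m : ℕ) (hg : 2 ≤ g) (hm : m + 1 = 2 * g) (κ c : ℝ) (hc : 0 < c) :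
    (4 * g + 4 < κ → AllNearPowers K m fun l => (∀ d : K, d ≠ 0 → Szpiro g κ c l d) ∧
      ∀ (L : Type) [Field L] [NumberField L] [Algebra K L] (d : L), d ≠ 0 → SzpiroExt g κ c l d) ∧
    (0 ≤ κ → κ < 4 * g + 4 → AllNearPowers K m fun l => ∃ d : K, d ≠ 0 ∧ ¬ Szpiro g κ c l d) ∧
    (2 < κ → AllNearPowers K m fun l => ∃ d : K, d ≠ 0 ∧ Szpiro g κ c l d) ∧
    (κ < 2 → AllNearPowers K m fun l => ∀ d : K, d ≠ 0 → ¬ Szpiro g κ c l d) := by
  obtain ⟨h1, h2⟩ := AllHeightsRationalWeierstrass.result K g m hg hm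
  obtain ⟨C1, hC1⟩ := (h1 1 one_pos).1
  have hfin : ∀ X : ℝ, 1 ≤ X → (Configurations K m X).Finite := fun X hX => (hC1 X hX).1
  have hm0 : 0 < m := by omega
  obtain ⟨a1, a2, a3, a4⟩ := h2 κ c hc
  exact ⟨fun hκ => transfer hm0 hfin (a1 hκ), fun hκ0 hκ => transfer hm0 hfin (a2 hκ0 hκ),
    fun hκ => transfer hm0 hfin (a3 hκ), fun hκ => transfer hm0 hfin (a4 hκ)⟩

end Pool.Agent.Results.MP_ca2859_nt.ConductorsNearPowers
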