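import Pool.Agent.Results.MP_ca2859_nt.RationalWeierstrassPoints
import Pool.Agent.H164.NA.Core

/-!
# The discriminant bound for all hyperelliptic curves with rational Weierstrass points near a typical point

Hyperelliptic curves of genus `g ≥ 2` over a number field `K` all of whose Weierstrass points are rational: the twists by
`d ∈ K*` of `y² = X ∏ (X - x_i)`, where `x = (x_0 : … : x_n)` is a point of `P^n(K)`, `n = 2 g - 1`, with `0, x_i`
different (a configuration). `H` is the absolute height of `x`, and the coordinates of `x` are the `x_i / x_0`.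

For almost every point `z` of the real space `K_ℝ ^ n`, almost every `z ∈ ℝ ^ n` (for ALL number fields `K ⊂ ℝ`) and almost
every `z ∈ ℂ ^ n` (for ALL number fields `K ⊂ ℂ`), for all `κ > 4 g + 4` and `c > 0` the inequality `Δ_C ≤ c M_C ^ κ` holds
for ALL twists of ALL but finitely many configurations whose coordinates are within `H ^ (-σ)` of `z`, and for all
`κ < 4 g + 4` it fails for a twist of EACH such configuration, up to finitely many. Here `σ` is smaller than the exponent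
`2 g / (2 g - 1)` in Dirichlet's theorem, up to which there are infinitely many configurations near every `z`.
-/

set_option autoImplicit false

namespace Pool.Agent.Results.MP_ca2859_nt.NearAlmostEveryPoint

open NumberField MeasureTheory Polynomial LinearAlgebra.Projectivization
open Pool.Agent.W318 (discNorm badNorm)
open RationalWeierstrassPoints (roots curve expo expoBelow)

section Defs

variable {K : Type} [Field K] [NumberField K] {n : ℕ}

/-- the absolute multiplicative height of a configuration -/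
noncomputable def H (P : ℙ K (Fin (n + 1) → K)) : ℝ := Real.exp (Real.log P.mulHeight / Module.finrank ℚ K)

/-- the coordinates `x_i / x_0` (`i = 1, …, n`) of a configuration -/
noncomputable def coord (P : ℙ K (Fin (n + 1) → K)) (i : Fin n) : K := P.rep i.succ / P.rep 0

/-- `Δ_C ≤ c M_C ^ κ` for all twists of all but finitely many of the configurations with different roots in `J` -/
def AllTwists (g : ℕ) (κ c : ℝ) (J : Set (ℙ K (Fin (n + 1) → K))) : Prop :=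
  ∃ F : Set (ℙ K (Fin (n + 1) → K)), F.Finite ∧ ∀ P ∈ J, P ∉ F → Function.Injective (roots P.rep) →
    ∀ d : K, d ≠ 0 → (discNorm g (curve d P.rep) : ℝ) ≤ c * (badNorm g (curve d P.rep) : ℝ) ^ κ

/-- `Δ_C > c M_C ^ κ` for a twist of each configuration with different roots in `J`, up to finitely many -/
def TwistFails (g : ℕ) (κ c : ℝ) (J : Set (ℙ K (Fin (n + 1) → K))) : Prop :=
  ∃ F : Set (ℙ K (Fin (n + 1) → K)), F.Finite ∧ ∀ P ∈ J, P ∉ F → Function.Injective (roots P.rep) →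
    ∃ d : K, d ≠ 0 ∧ c * (badNorm g (curve d P.rep) : ℝ) ^ κ < (discNorm g (curve d P.rep) : ℝ)

end Defs

section Aux

/-- all parameters at once -/
theorem near_pts {ι : Type} (h : ι → ℝ) (h1 : ∀ t, 1 ≤ h t) (I : Set ℝ) (s : ℝ → ℝ) (Bad : ℝ → ℝ → Set ι) {D : ℝ}
    (hD : 0 < D) (hs : ∀ κ ∈ I, 0 ≤ s κ)
    (hcount : ∀ κ ∈ I, ∀ c : ℝ, 0 < c → ∀ ε : ℝ, 0 < ε → ∃ C : ℝ, ∀ X : ℝ, 1 ≤ X →
      {t : ι | t ∈ Bad κ c ∧ h t ≤ X}.Finite ∧
        ({t : ι | t ∈ Bad κ c ∧ h t ≤ X}.ncard : ℝ) ≤ C * X ^ (D * s κ + ε))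
    (hdense : ∀ κ ∈ I, ∀ c : ℝ, 0 < c → ∀ t : ℝ, s κ < t →
      ∃ r q : ℚ, (r : ℝ) ∈ I ∧ (0 : ℝ) < q ∧ s r < t ∧ Bad κ c ⊆ Bad r q)
    {V : Type} [NormedAddCommGroup V] [NormedSpace ℝ V] [FiniteDimensional ℝ V]
    [MeasurableSpace V] [BorelSpace V] (μ : Measure V) [μ.IsAddHaarMeasure]
    (hV : 0 < Module.finrank ℝ V) (φ : ι → V) :
    ∀ᵐ z ∂μ, ∀ κ ∈ I, ∀ c : ℝ, 0 < c → ∀ σ : ℝ, D * s κ / Module.finrank ℝ V < σ →
      {t : ι | dist (φ t) z ≤ h t ^ (-σ) ∧ t ∈ Bad κ c}.Finite := by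
  have hm : (0 : ℝ) < Module.finrank ℝ V := by exact_mod_cast hV
  have hr : ∀ p : ℚ × ℚ, ∀ᵐ z ∂μ, (p.1 : ℝ) ∈ I → (0 : ℝ) < p.2 → ∀ σ : ℝ,
      D * s p.1 / Module.finrank ℝ V < σ →
      {t : ι | dist (φ t) z ≤ h t ^ (-σ) ∧ t ∈ Bad p.1 p.2}.Finite := by
    intro p
    by_cases hr0 : (p.1 : ℝ) ∈ I
    · by_cases hq0 : (0 : ℝ) < p.2
      · have h2 := Pool.Agent.H2N.ae_family_space μ hV φ h h1 (s := D * s p.1) (mul_nonneg hD.le (hs _ hr0))
          (J := Unit) (fun _ => Bad p.1 p.2) (fun _ => hcount _ hr0 _ hq0)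
        filter_upwards [h2] with z hz _ _ σ hσ
        exact (hz σ hσ ()).subset fun c hc => ⟨hc.2, hc.1⟩
      · exact Filter.Eventually.of_forall fun z _ h2 => absurd h2 hq0
    · exact Filter.Eventually.of_forall fun z h2 => absurd h2 hr0
  filter_upwards [ae_all_iff.2 hr] with z hz κ hκ c hc σ hσ
  obtain ⟨r, q, hr1, hq1, hr2, hr3⟩ := hdense κ hκ c hc (σ * Module.finrank ℝ V / D) (by
    rw [lt_div_iff₀ hD, mul_comm]
    rwa [div_lt_iff₀ hm] at hσ)
  refine (hz (r, q) hr1 hq1 σ ?_).subset fun c hc => ⟨hc.1, hr3 hc.2⟩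
  rw [div_lt_iff₀ hm]
  rwa [lt_div_iff₀ hD, mul_comm] at hr2

variable {K : Type} [Field K] [NumberField K] {n : ℕ}

/-- the configurations with a bad twist -/
def BadA (g : ℕ) (κ c : ℝ) : Set (ℙ K (Fin (n + 1) → K)) :=
  {P | Function.Injective (roots P.rep) ∧
    ∃ d : K, d ≠ 0 ∧ c * (badNorm g (curve d P.rep) : ℝ) ^ κ < discNorm g (curve d P.rep)}

/-- the configurations without a bad twist -/
def BadB (g : ℕ) (κ c : ℝ) : Set (ℙ K (Fin (n + 1) → K)) :=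
  {P | Function.Injective (roots P.rep) ∧
    ∀ d : K, d ≠ 0 → (discNorm g (curve d P.rep) : ℝ) ≤ c * (badNorm g (curve d P.rep) : ℝ) ^ κ}

lemma one_le_H (P : ℙ K (Fin (n + 1) → K)) : 1 ≤ H P := by
  refine Real.one_le_exp (div_nonneg (Real.log_nonneg ?_) (Nat.cast_nonneg _))
  exact P.one_le_mulHeight

lemma H_le_iff (P : ℙ K (Fin (n + 1) → K)) {X : ℝ} (hX : 0 < X) :
    H P ≤ X ↔ Real.log P.mulHeight / Module.finrank ℚ K ≤ Real.log X := by
  unfold H
  rw [← Real.le_log_iff_exp_le hX]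

lemma one_le_bad (g : ℕ) (F : K[X]) : (1 : ℝ) ≤ badNorm g F := by
  have h : 1 ≤ badNorm g F := by
    unfold badNorm
    refine finprod_induction (fun x : ℕ => 1 ≤ x) le_rfl (fun a b ha hb => Nat.mul_pos ha hb) fun v => ?_
    show 1 ≤ _
    split_ifs with h1
    · exact le_rfl
    · exact Nat.pos_of_ne_zero fun h0 => v.ne_bot (Ideal.absNorm_eq_zero_iff.1 h0)
  exact_mod_cast h

lemma badA_mono {g : ℕ} {κ c r q : ℝ} (hr : r ≤ κ) (hq : q ≤ c) (hc : 0 < c) :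
    (BadA g κ c : Set (ℙ K (Fin (n + 1) → K))) ⊆ BadA g r q := by
  rintro P ⟨h1, d, hd, h2⟩
  refine ⟨h1, d, hd, lt_of_le_of_lt ?_ h2⟩
  have h3 := one_le_bad g (curve d P.rep)
  refine mul_le_mul hq (Real.rpow_le_rpow_of_exponent_le h3 hr) (by positivity) hc.le

lemma badB_mono {g : ℕ} {κ c r q : ℝ} (hr : κ ≤ r) (hq : c ≤ q) (hc : 0 < c) :
    (BadB g κ c : Set (ℙ K (Fin (n + 1) → K))) ⊆ BadB g r q := by
  rintro P ⟨h1, h2⟩
  refine ⟨h1, fun d hd => (h2 d hd).trans ?_⟩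
  have h3 := one_le_bad g (curve d P.rep)
  exact mul_le_mul hq (Real.rpow_le_rpow_of_exponent_le h3 hr) (by positivity) (hc.le.trans hq)

lemma countA {g : ℕ} (hg : 2 ≤ g) (hn : n + 1 = 2 * g) (κ : ℝ) (hκ : κ ∈ Set.Ioi (4 * (g : ℝ) + 4)) (c : ℝ)
    (hc : 0 < c) : ∀ ε : ℝ, 0 < ε → ∃ C : ℝ, ∀ X : ℝ, 1 ≤ X →
      {P : ℙ K (Fin (n + 1) → K) | P ∈ BadA g κ c ∧ H P ≤ X}.Finite ∧
        ({P : ℙ K (Fin (n + 1) → K) | P ∈ BadA g κ c ∧ H P ≤ X}.ncard : ℝ) ≤
          C * X ^ ((Module.finrank ℚ K : ℝ) * expo g κ + ε) := by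
  intro ε hε
  obtain ⟨M, hM⟩ := ((RationalWeierstrassPoints.result K g n hg hn κ).1 hκ).2 c ε hc hε
  refine ⟨M, fun X hX => ?_⟩
  have hX0 : 0 < X := by linarith
  have heq : {P : ℙ K (Fin (n + 1) → K) | P ∈ BadA g κ c ∧ H P ≤ X} =
      RationalWeierstrassPoints.exceptional K g n κ c X := by
    ext P
    constructor
    · rintro ⟨⟨g1, g2⟩, g3⟩
      exact ⟨g1, (H_le_iff P hX0).1 g3, g2⟩
    · rintro ⟨g1, g3, g2⟩
      exact ⟨⟨g1, g2⟩, (H_le_iff P hX0).2 g3⟩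
  rw [heq]
  exact hM X hX

lemma countB {g : ℕ} (hg : 2 ≤ g) (hn : n + 1 = 2 * g) (κ : ℝ) (hκ : κ ∈ Set.Ico (0 : ℝ) (4 * (g : ℝ) + 4)) (c : ℝ)
    (hc : 0 < c) : ∀ ε : ℝ, 0 < ε → ∃ C : ℝ, ∀ X : ℝ, 1 ≤ X →
      {P : ℙ K (Fin (n + 1) → K) | P ∈ BadB g κ c ∧ H P ≤ X}.Finite ∧
        ({P : ℙ K (Fin (n + 1) → K) | P ∈ BadB g κ c ∧ H P ≤ X}.ncard : ℝ) ≤
          C * X ^ ((Module.finrank ℚ K : ℝ) * expoBelow g κ + ε) := by
  intro ε hε
  obtain ⟨M, hM⟩ := ((RationalWeierstrassPoints.result K g n hg hn κ).2 hκ.1 hκ.2).2 c ε hc hε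
  refine ⟨M, fun X hX => ?_⟩
  have hX0 : 0 < X := by linarith
  have heq : {P : ℙ K (Fin (n + 1) → K) | P ∈ BadB g κ c ∧ H P ≤ X} =
      RationalWeierstrassPoints.uniform K g n κ c X := by
    ext P
    constructor
    · rintro ⟨⟨g1, g2⟩, g3⟩
      exact ⟨g1, (H_le_iff P hX0).1 g3, g2⟩
    · rintro ⟨g1, g3, g2⟩
      exact ⟨⟨g1, g2⟩, (H_le_iff P hX0).2 g3⟩
  rw [heq]
  exact hM X hX

lemma expo_nonneg {g : ℕ} (hg : 2 ≤ g) (κ : ℝ) (hκ : κ ∈ Set.Ioi (4 * (g : ℝ) + 4)) : 0 ≤ expo g κ := by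
  have hg2 : (2 : ℝ) ≤ g := by exact_mod_cast hg
  have hκ' : 4 * (g : ℝ) + 4 < κ := hκ
  have hk : 0 < κ - 4 * g - 2 := by linarith
  unfold expo
  refine le_min ((by linarith : (0 : ℝ) ≤ 2 * g - 1 / 2).trans (le_max_left _ _)) (le_min ?_ ?_)
  · positivity
  · have : (0 : ℝ) ≤ 2 * g - 1 := by linarith
    positivity

lemma expoBelow_nonneg {g : ℕ} (hg : 2 ≤ g) (κ : ℝ) : 0 ≤ expoBelow g κ := by
  have hg2 : (2 : ℝ) ≤ g := by exact_mod_cast hg
  unfold expoBelow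
  exact (by linarith : (0 : ℝ) ≤ 2 * g - 1 / 2).trans (le_max_left _ _)

lemma expo_cont {g : ℕ} {κ : ℝ} (hκ : 4 * (g : ℝ) + 4 < κ) : ContinuousAt (expo g) κ := by
  have hk : κ - 4 * g - 2 ≠ 0 := by
    have : (0 : ℝ) < κ - 4 * g - 2 := by linarith
    exact this.ne'
  have e1 : ContinuousAt (fun x : ℝ => x - 4 * (g : ℝ) - 2) κ := by fun_prop
  unfold expo
  refine Filter.Tendsto.min (Filter.Tendsto.max tendsto_const_nhds ?_) (Filter.Tendsto.min ?_ ?_)
  · exact continuousAt_const.div e1 hk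
  · exact continuousAt_const.div e1 hk
  · exact continuousAt_const.add (continuousAt_const.div e1 hk)

lemma expoBelow_cont {g : ℕ} {κ : ℝ} (hκ : κ < 4 * (g : ℝ) + 4) : ContinuousAt (expoBelow g) κ := by
  have hg : (0 : ℝ) ≤ g := Nat.cast_nonneg g
  have hk : 2 + (2 * (g : ℝ) + 1) * (1 - κ / (4 * g + 4)) ≠ 0 := by
    have h1 : κ / (4 * (g : ℝ) + 4) < 1 := by
      rw [div_lt_one (by positivity)]
      exact hκ
    have : (0 : ℝ) < 2 + (2 * (g : ℝ) + 1) * (1 - κ / (4 * g + 4)) := by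
      have h2 : 0 < 1 - κ / (4 * (g : ℝ) + 4) := by linarith
      positivity
    exact this.ne'
  unfold expoBelow
  exact Filter.Tendsto.max tendsto_const_nhds (continuousAt_const.div (by fun_prop) hk : ContinuousAt _ κ)

lemma denseA {g : ℕ} (κ : ℝ) (hκ : κ ∈ Set.Ioi (4 * (g : ℝ) + 4)) (c : ℝ) (hc : 0 < c) (t : ℝ)
    (ht : expo g κ < t) : ∃ r q : ℚ, (r : ℝ) ∈ Set.Ioi (4 * (g : ℝ) + 4) ∧ (0 : ℝ) < q ∧ expo g r < t ∧
      (BadA g κ c : Set (ℙ K (Fin (n + 1) → K))) ⊆ BadA g r q := by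
  have h1 : ∀ᶠ x in nhds κ, expo g x < t := (expo_cont hκ).eventually_lt continuousAt_const ht
  obtain ⟨l, hl, hl2⟩ := exists_Ioc_subset_of_mem_nhds h1 ⟨κ - 1, by linarith⟩
  obtain ⟨r, hr1, hr2⟩ : ∃ r : ℚ, max l (4 * (g : ℝ) + 4) < (r : ℝ) ∧ (r : ℝ) < κ :=
    exists_rat_btwn (max_lt hl hκ)
  obtain ⟨q, hq1, hq2⟩ : ∃ q : ℚ, (0 : ℝ) < (q : ℝ) ∧ (q : ℝ) < c := exists_rat_btwn hc
  exact ⟨r, q, (le_max_right _ _).trans_lt hr1, hq1, hl2 ⟨(le_max_left _ _).trans_lt hr1, hr2.le⟩,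
    badA_mono hr2.le hq2.le hc⟩

lemma denseB {g : ℕ} (κ : ℝ) (hκ : κ ∈ Set.Ico (0 : ℝ) (4 * (g : ℝ) + 4)) (c : ℝ) (hc : 0 < c) (t : ℝ)
    (ht : expoBelow g κ < t) : ∃ r q : ℚ, (r : ℝ) ∈ Set.Ico (0 : ℝ) (4 * (g : ℝ) + 4) ∧ (0 : ℝ) < q ∧
      expoBelow g r < t ∧ (BadB g κ c : Set (ℙ K (Fin (n + 1) → K))) ⊆ BadB g r q := by
  have h1 : ∀ᶠ x in nhds κ, expoBelow g x < t := (expoBelow_cont hκ.2).eventually_lt continuousAt_const ht
  obtain ⟨u, hu, hu2⟩ := exists_Ico_subset_of_mem_nhds h1 ⟨κ + 1, by linarith⟩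
  obtain ⟨r, hr1, hr2⟩ : ∃ r : ℚ, κ < (r : ℝ) ∧ (r : ℝ) < min u (4 * (g : ℝ) + 4) :=
    exists_rat_btwn (lt_min hu hκ.2)
  obtain ⟨q, hq1, -⟩ : ∃ q : ℚ, c < (q : ℝ) ∧ (q : ℝ) < c + 1 := exists_rat_btwn (by linarith)
  exact ⟨r, q, ⟨hκ.1.trans hr1.le, hr2.trans_le (min_le_right _ _)⟩, hc.trans hq1,
    hu2 ⟨hr1.le, hr2.trans_le (min_le_left _ _)⟩, badB_mono hr1.le hq1.le hc⟩

lemma all_of {K : Type} [Field K] [NumberField K] {n : ℕ} {g : ℕ} {κ c : ℝ} {J : Set (ℙ K (Fin (n + 1) → K))} (h : {P | P ∈ J ∧ P ∈ BadA g κ c}.Finite) :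
    AllTwists g κ c J := by
  refine ⟨_, h, fun P hP hF hinj d hd => ?_⟩
  by_contra hcon
  exact hF ⟨hP, hinj, d, hd, not_le.1 hcon⟩

lemma fails_of {g : ℕ} {κ c : ℝ} {J : Set (ℙ K (Fin (n + 1) → K))} (h : {P | P ∈ J ∧ P ∈ BadB g κ c}.Finite) :
    TwistFails g κ c J := by
  refine ⟨_, h, fun P hP hF hinj => ?_⟩
  by_contra hcon
  push Not at hcon
  exact hF ⟨hP, hinj, hcon⟩

/-- one field, one space -/
lemma one_space {g : ℕ} (hg : 2 ≤ g) (hn : n + 1 = 2 * g) {V : Type} [NormedAddCommGroup V] [NormedSpace ℝ V]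
    [FiniteDimensional ℝ V] [MeasurableSpace V] [BorelSpace V] (μ : Measure V) [μ.IsAddHaarMeasure]
    (hV : 0 < Module.finrank ℝ V) (φ : ℙ K (Fin (n + 1) → K) → V) :
    ∀ᵐ z ∂μ, (∀ κ c σ : ℝ, 4 * (g : ℝ) + 4 < κ → 0 < c →
        Module.finrank ℚ K * expo g κ / Module.finrank ℝ V < σ →
          AllTwists g κ c {P | dist (φ P) z ≤ H P ^ (-σ)}) ∧
      ∀ κ c σ : ℝ, 0 ≤ κ → κ < 4 * (g : ℝ) + 4 → 0 < c →
        Module.finrank ℚ K * expoBelow g κ / Module.finrank ℝ V < σ →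
          TwistFails g κ c {P | dist (φ P) z ≤ H P ^ (-σ)} := by
  have hd : (0 : ℝ) < (Module.finrank ℚ K : ℝ) := by exact_mod_cast Module.finrank_pos
  have h1 := near_pts (ι := ℙ K (Fin (n + 1) → K)) H one_le_H (Set.Ioi (4 * (g : ℝ) + 4)) (expo g)
    (fun κ c => BadA g κ c) hd (expo_nonneg hg) (countA hg hn) denseA μ hV φ
  have h2 := near_pts (ι := ℙ K (Fin (n + 1) → K)) H one_le_H (Set.Ico (0 : ℝ) (4 * (g : ℝ) + 4)) (expoBelow g)
    (fun κ c => BadB g κ c) hd (fun κ _ => expoBelow_nonneg hg κ) (countB hg hn) denseB μ hV φ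
  filter_upwards [h1, h2] with z hz1 hz2
  exact ⟨fun κ c σ hκ hc hσ => all_of (hz1 κ hκ c hc σ hσ),
    fun κ c σ hκ0 hκ hc hσ => fails_of (hz2 κ ⟨hκ0, hκ⟩ c hc σ hσ)⟩

/-- all fields in a field `E` at once -/
lemma all_fields {g : ℕ} (hg : 2 ≤ g) (hn : n + 1 = 2 * g) (E : Type) [NormedField E] [CharZero E]
    [NormedSpace ℝ E] [FiniteDimensional ℝ E] [MeasurableSpace E] [BorelSpace E] [SecondCountableTopology E]
    (μ : Measure E) [μ.IsAddHaarMeasure] [SigmaFinite μ] (hE : 0 < Module.finrank ℝ E) :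
    ∀ᵐ z : Fin n → E ∂(Measure.pi fun _ => μ), ∀ (K : IntermediateField ℚ E) [NumberField K],
      (∀ κ c σ : ℝ, 4 * (g : ℝ) + 4 < κ → 0 < c → expo g κ / (Module.finrank ℝ E * n) < σ →
          AllTwists g κ c {P : ℙ K (Fin (n + 1) → K) | ∀ i, dist ((coord P i : K) : E) (z i) ≤
            H P ^ (-(Module.finrank ℚ K * σ))}) ∧
      ∀ κ c σ : ℝ, 0 ≤ κ → κ < 4 * (g : ℝ) + 4 → 0 < c → expoBelow g κ / (Module.finrank ℝ E * n) < σ →
          TwistFails g κ c {P : ℙ K (Fin (n + 1) → K) | ∀ i, dist ((coord P i : K) : E) (z i) ≤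
            H P ^ (-(Module.finrank ℚ K * σ))} := by
  have hn0 : 0 < n := by omega
  have hfr : Module.finrank ℝ (Fin n → E) = n * Module.finrank ℝ E := by
    rw [Module.finrank_pi_fintype, Finset.sum_const, Finset.card_univ, Fintype.card_fin, smul_eq_mul]
  have hV : 0 < Module.finrank ℝ (Fin n → E) := by
    rw [hfr]
    exact Nat.mul_pos hn0 hE
  have hcnt : Countable {K : IntermediateField ℚ E // NumberField K} :=
    (Pool.Agent.H164.NA.countable_fields E).to_subtype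
  have h1 : ∀ K : {K : IntermediateField ℚ E // NumberField K},
      ∀ᵐ z : Fin n → E ∂(Measure.pi fun _ => μ), ∀ _ : NumberField K.1,
      (∀ κ c σ : ℝ, 4 * (g : ℝ) + 4 < κ → 0 < c → expo g κ / (Module.finrank ℝ E * n) < σ →
          AllTwists g κ c {P : ℙ K.1 (Fin (n + 1) → K.1) | ∀ i, dist ((coord P i : K.1) : E) (z i) ≤
            H P ^ (-(Module.finrank ℚ K.1 * σ))}) ∧
      ∀ κ c σ : ℝ, 0 ≤ κ → κ < 4 * (g : ℝ) + 4 → 0 < c → expoBelow g κ / (Module.finrank ℝ E * n) < σ →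
          TwistFails g κ c {P : ℙ K.1 (Fin (n + 1) → K.1) | ∀ i, dist ((coord P i : K.1) : E) (z i) ≤
            H P ^ (-(Module.finrank ℚ K.1 * σ))} := by
    rintro ⟨K, hK⟩
    have hd : (0 : ℝ) < (Module.finrank ℚ K : ℝ) := by exact_mod_cast Module.finrank_pos
    have h2 := one_space (K := K) hg hn (Measure.pi fun _ : Fin n => μ) hV (fun P i => ((coord P i : K) : E))
    filter_upwards [h2] with z hz _
    have hset : ∀ σ : ℝ, {P : ℙ K (Fin (n + 1) → K) | ∀ i, dist ((coord P i : K) : E) (z i) ≤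
        H P ^ (-(Module.finrank ℚ K * σ))} = {P | dist (fun i => ((coord P i : K) : E)) z ≤
        H P ^ (-(Module.finrank ℚ K * σ))} := by
      intro σ
      ext P
      have h0 : (0 : ℝ) ≤ H P ^ (-(Module.finrank ℚ K * σ)) :=
        Real.rpow_nonneg (zero_le_one.trans (one_le_H P)) _
      exact (dist_pi_le_iff h0).symm
    have hexp : ∀ e σ : ℝ, e / (Module.finrank ℝ E * n) < σ →
        Module.finrank ℚ K * e / Module.finrank ℝ (Fin n → E) < Module.finrank ℚ K * σ := by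
      intro e σ h
      rw [hfr, mul_div_assoc]
      push_cast
      rw [mul_comm (n : ℝ)]
      exact mul_lt_mul_of_pos_left h hd
    refine ⟨fun κ c σ hκ hc hσ => ?_, fun κ c σ hκ0 hκ hc hσ => ?_⟩
    · rw [hset]
      exact hz.1 κ c _ hκ hc (hexp _ _ hσ)
    · rw [hset]
      exact hz.2 κ c _ hκ0 hκ hc (hexp _ _ hσ)
  filter_upwards [ae_all_iff.2 h1] with z hz K hK
  exact hz ⟨K, hK⟩ hK

end Aux

open scoped Classical in
/-- **Theorem.** Let `g ≥ 2` and `n = 2 g - 1`. Then `expo g κ < n + 1` for `κ > 4 g + 4` and `expoBelow g κ < n + 1` for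
`0 ≤ κ < 4 g + 4`. `K` is any number field, of degree `d`, and `J` stands for a set of configurations, that is, of points of
`P^n(K)`; `AllTwists g κ c J` means that for ALL twists `C` of ALL configurations in `J` with different roots, up to finitely
many configurations, `Δ_C ≤ c M_C ^ κ`, and `TwistFails g κ c J` that for EACH configuration in `J` with different roots, up
to finitely many, `Δ_C > c M_C ^ κ` for some twist `C`. In (1), (2) and (3) the statement is: for all `c > 0`, all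
`κ > 4 g + 4` and all `σ > expo g κ / n` (in (3): `> expo g κ / (2 n)`) `AllTwists g κ c J` holds, and for all `c > 0`, all
`0 ≤ κ < 4 g + 4` and all `σ > expoBelow g κ / n` (in (3): `> expoBelow g κ / (2 n)`) `TwistFails g κ c J` holds.
(1) For almost every `z` in the `n`-th power of the real space of `K`, with the set `J` of all configurations whose
coordinates `x_i / x_0` are within `H(x) ^ (-σ)` of the `z_i` at all archimedean places.
(2) For almost every `z ∈ ℝ ^ n`, for all number fields `K ⊂ ℝ` at once, with the set `J` of all configurations with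
`|x_i / x_0 - z_i| ≤ H(x) ^ (-d σ)`.
(3) For almost every `z ∈ ℂ ^ n`, for all number fields `K ⊂ ℂ` at once, with the set `J` of all configurations with
`|x_i / x_0 - z_i| ≤ H(x) ^ (-d σ)`.
(4) For every map `φ` from `P^n(K)` to a metric space `M`, all `c > 0`, `κ` and `σ > 0` there is a set `E ⊆ M` of dimension
at most `d expo g κ / σ` (`κ > 4 g + 4`) or `d expoBelow g κ / σ` (`0 ≤ κ < 4 g + 4`) such that the statement holds for all
`z` outside `E` and the set `J` of all `P` with `dist (φ P, z) ≤ H(P) ^ (-σ)`. -/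
theorem result (g n : ℕ) (hg : 2 ≤ g) (hn : n + 1 = 2 * g) :
    ((∀ κ : ℝ, 4 * (g : ℝ) + 4 < κ → expo g κ < n + 1) ∧
      ∀ κ : ℝ, 0 ≤ κ → κ < 4 * (g : ℝ) + 4 → expoBelow g κ < n + 1) ∧
    (∀ (K : Type) [Field K] [NumberField K], ∀ᵐ z : Fin n → mixedEmbedding.mixedSpace K,
      (∀ κ c σ : ℝ, 4 * (g : ℝ) + 4 < κ → 0 < c → expo g κ / n < σ →
        AllTwists g κ c {P : ℙ K (Fin (n + 1) → K) | ∀ i, dist (mixedEmbedding K (coord P i)) (z i) ≤ H P ^ (-σ)}) ∧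
      ∀ κ c σ : ℝ, 0 ≤ κ → κ < 4 * (g : ℝ) + 4 → 0 < c → expoBelow g κ / n < σ →
        TwistFails g κ c {P : ℙ K (Fin (n + 1) → K) |
          ∀ i, dist (mixedEmbedding K (coord P i)) (z i) ≤ H P ^ (-σ)}) ∧
    (∀ᵐ z : Fin n → ℝ, ∀ (K : IntermediateField ℚ ℝ) [NumberField K],
      (∀ κ c σ : ℝ, 4 * (g : ℝ) + 4 < κ → 0 < c → expo g κ / n < σ →
        AllTwists g κ c {P : ℙ K (Fin (n + 1) → K) |
          ∀ i, |((coord P i : K) : ℝ) - z i| ≤ H P ^ (-(Module.finrank ℚ K * σ))}) ∧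
      ∀ κ c σ : ℝ, 0 ≤ κ → κ < 4 * (g : ℝ) + 4 → 0 < c → expoBelow g κ / n < σ →
        TwistFails g κ c {P : ℙ K (Fin (n + 1) → K) |
          ∀ i, |((coord P i : K) : ℝ) - z i| ≤ H P ^ (-(Module.finrank ℚ K * σ))}) ∧
    (∀ᵐ z : Fin n → ℂ, ∀ (K : IntermediateField ℚ ℂ) [NumberField K],
      (∀ κ c σ : ℝ, 4 * (g : ℝ) + 4 < κ → 0 < c → expo g κ / (2 * n) < σ →
        AllTwists g κ c {P : ℙ K (Fin (n + 1) → K) |
          ∀ i, ‖((coord P i : K) : ℂ) - z i‖ ≤ H P ^ (-(Module.finrank ℚ K * σ))}) ∧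
      ∀ κ c σ : ℝ, 0 ≤ κ → κ < 4 * (g : ℝ) + 4 → 0 < c → expoBelow g κ / (2 * n) < σ →
        TwistFails g κ c {P : ℙ K (Fin (n + 1) → K) |
          ∀ i, ‖((coord P i : K) : ℂ) - z i‖ ≤ H P ^ (-(Module.finrank ℚ K * σ))}) ∧
    (∀ (K : Type) [Field K] [NumberField K] (M : Type) [MetricSpace M] (φ : ℙ K (Fin (n + 1) → K) → M)
      (κ c σ : ℝ), 0 < c → 0 < σ →
      (4 * (g : ℝ) + 4 < κ → ∃ E : Set M, dimH E ≤ ENNReal.ofReal (Module.finrank ℚ K * expo g κ / σ) ∧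
        ∀ z : M, z ∉ E → AllTwists g κ c {P | dist (φ P) z ≤ H P ^ (-σ)}) ∧
      (0 ≤ κ → κ < 4 * (g : ℝ) + 4 → ∃ E : Set M,
        dimH E ≤ ENNReal.ofReal (Module.finrank ℚ K * expoBelow g κ / σ) ∧
          ∀ z : M, z ∉ E → TwistFails g κ c {P | dist (φ P) z ≤ H P ^ (-σ)})) := by
  have hn0 : 0 < n := by omega
  have hn1 : (0 : ℝ) < n := by exact_mod_cast hn0
  have hng : (n : ℝ) + 1 = 2 * g := by exact_mod_cast hn
  refine ⟨⟨fun κ hκ => ?_, fun κ hκ0 hκ => ?_⟩, ?_, ?_, ?_, ?_⟩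
  · rw [hng]
    exact ((RationalWeierstrassPoints.result ℚ g n hg hn κ).1 hκ).1
  · rw [hng]
    exact ((RationalWeierstrassPoints.result ℚ g n hg hn κ).2 hκ0 hκ).1
  · intro K _ _
    have hd0 : 0 < Module.finrank ℚ K := Module.finrank_pos
    have hd : (0 : ℝ) < (Module.finrank ℚ K : ℝ) := by exact_mod_cast hd0
    have hfr : Module.finrank ℝ (Fin n → mixedEmbedding.mixedSpace K) = n * Module.finrank ℚ K := by
      rw [Module.finrank_pi_fintype, Finset.sum_const, Finset.card_univ, Fintype.card_fin, smul_eq_mul,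
        mixedEmbedding.finrank K]
    have hV : 0 < Module.finrank ℝ (Fin n → mixedEmbedding.mixedSpace K) := by
      rw [hfr]
      exact Nat.mul_pos hn0 hd0
    have i1 : BorelSpace (mixedEmbedding.mixedSpace K) := inferInstance
    have i2 : (volume : Measure (mixedEmbedding.mixedSpace K)).IsAddHaarMeasure := inferInstance
    have i3 : SigmaFinite (volume : Measure (mixedEmbedding.mixedSpace K)) := inferInstance
    have h2 := one_space (K := K) hg hn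
      (Measure.pi fun _ : Fin n => (volume : Measure (mixedEmbedding.mixedSpace K))) hV
      (fun P i => mixedEmbedding K (coord P i))
    rw [volume_pi]
    filter_upwards [h2] with z hz
    have hset : ∀ σ : ℝ, {P : ℙ K (Fin (n + 1) → K) | ∀ i, dist (mixedEmbedding K (coord P i)) (z i) ≤
        H P ^ (-σ)} = {P | dist (fun i => mixedEmbedding K (coord P i)) z ≤ H P ^ (-σ)} := by
      intro σ
      ext P
      have h0 : (0 : ℝ) ≤ H P ^ (-σ) := Real.rpow_nonneg (zero_le_one.trans (one_le_H P)) _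
      exact (dist_pi_le_iff h0).symm
    have hexp : ∀ e σ : ℝ, e / n < σ →
        Module.finrank ℚ K * e / Module.finrank ℝ (Fin n → mixedEmbedding.mixedSpace K) < σ := by
      intro e σ h
      rw [hfr]
      push_cast
      rw [mul_comm (n : ℝ), mul_div_mul_left _ _ hd.ne']
      exact h
    refine ⟨fun κ c σ hκ hc hσ => ?_, fun κ c σ hκ0 hκ hc hσ => ?_⟩
    · rw [hset]
      exact hz.1 κ c _ hκ hc (hexp _ _ hσ)
    · rw [hset]
      exact hz.2 κ c _ hκ0 hκ hc (hexp _ _ hσ)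
  · have h1 := all_fields hg hn ℝ (volume : Measure ℝ) (by rw [Module.finrank_self]; exact one_pos)
    rw [Module.finrank_self, Nat.cast_one, one_mul] at h1
    exact h1
  · have h1 := all_fields hg hn ℂ (volume : Measure ℂ) (by rw [Complex.finrank_real_complex]; norm_num)
    rw [Complex.finrank_real_complex, Nat.cast_ofNat] at h1
    filter_upwards [h1] with z hz K hK
    obtain ⟨h2, h3⟩ := hz K
    simp only [dist_eq_norm] at h2 h3
    exact ⟨h2, h3⟩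
  · intro K _ _ M _ φ κ c σ hc hσ
    have hd : (0 : ℝ) < (Module.finrank ℚ K : ℝ) := by exact_mod_cast Module.finrank_pos
    refine ⟨fun hκ => ?_, fun hκ0 hκ => ?_⟩
    · obtain ⟨E, hE1, hE2⟩ := Pool.Agent.H107.ME.dim_family φ (fun P => H P) one_le_H
        (s := (Module.finrank ℚ K : ℝ) * expo g κ) (mul_nonneg hd.le (expo_nonneg hg κ hκ)) hσ (J := Unit)
        (fun _ => BadA g κ c) (fun _ => countA hg hn κ hκ c hc)
      exact ⟨E, hE1, fun z hz => all_of ((hE2 z hz ()).subset fun P hP => ⟨hP.2, hP.1⟩)⟩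
    · obtain ⟨E, hE1, hE2⟩ := Pool.Agent.H107.ME.dim_family φ (fun P => H P) one_le_H
        (s := (Module.finrank ℚ K : ℝ) * expoBelow g κ) (mul_nonneg hd.le (expoBelow_nonneg hg κ)) hσ (J := Unit)
        (fun _ => BadB g κ c) (fun _ => countB hg hn κ ⟨hκ0, hκ⟩ c hc)
      exact ⟨E, hE1, fun z hz => fails_of ((hE2 z hz ()).subset fun P hP => ⟨hP.2, hP.1⟩)⟩

end Pool.Agent.Results.MP_ca2859_nt.NearAlmostEveryPoint
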